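import Pool.Agent.Helper55.SCH.Goals

set_option autoImplicit false

namespace Pool.Agent.Helper90.SCH

open Finset Pool.Agent.Helper55.SCH

lemma abel (f : ℕ → ℝ) (n : ℕ) :
    ∑ x ∈ Icc 1 n, f x = n * f n - ∑ x ∈ Icc 1 n, ((x : ℝ) - 1) * (f x - f (x - 1)) := by
  induction n with
  | zero => simp
  | succ n ih =>
    rw [Finset.sum_Icc_succ_top (by omega), Finset.sum_Icc_succ_top (by omega), ih]
    push_cast
    ring

lemma reflect (f : ℕ → ℝ) (n : ℕ) :
    ∑ x ∈ Icc 1 n, f x = ∑ x ∈ Icc 1 n, f (n + 1 - x) := by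
  refine Finset.sum_nbij' (fun x => n + 1 - x) (fun x => n + 1 - x) ?_ ?_ ?_ ?_ ?_
  · intro x hx
    simp only [mem_Icc] at hx ⊢
    omega
  · intro x hx
    simp only [mem_Icc] at hx ⊢
    omega
  · intro x hx
    simp only [mem_Icc] at hx
    omega
  · intro x hx
    simp only [mem_Icc] at hx
    omega
  · intro x hx
    simp only [mem_Icc] at hx
    rw [show n + 1 - (n + 1 - x) = x by omega]

lemma shift (f : ℕ → ℝ) (n : ℕ) :
    ∑ x ∈ Icc 1 n, ((x : ℝ) - 1) * f (x - 1) = ∑ x ∈ Icc 1 n, (x : ℝ) * f x - n * f n := by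
  induction n with
  | zero => simp
  | succ n ih =>
    rw [Finset.sum_Icc_succ_top (by omega), Finset.sum_Icc_succ_top (by omega), ih]
    push_cast
    ring

theorem goalPOH (hHUB : G_HUB) (hTELG : G_TELG) (hTELW : G_TELW) : G_POH := by
  intro c u lam s r H hu1
  have huc := H.hu
  have hl := H.lam1
  have hl0 : (0 : ℝ) < lam := by linarith
  obtain ⟨h1, -, -, -, h5, h6, -, -⟩ := hHUB lam hl0
  have hs1 : ∀ x, |s x| ≤ 1 := by
    intro x
    by_cases hx : x ∈ Icc 1 c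
    · rw [H.hs x hx, abs_neg]; exact h1 _
    · rw [H.s0 x hx]; simp
  have hr1 : ∀ x, |r x| ≤ 1 := by
    intro x
    by_cases hx : x ∈ Icc 1 u
    · rw [H.hr x hx, abs_neg]; exact h1 _
    · rw [H.r0 x hx]; simp
  have hc0 : (0 : ℝ) ≤ c := Nat.cast_nonneg _
  have hu0 : (0 : ℝ) ≤ u := Nat.cast_nonneg _
  have hucR : (u : ℝ) ≤ c := by exact_mod_cast huc
  have hc1 : (1 : ℝ) ≤ c := by exact_mod_cast (le_trans hu1 huc)
  -- step A
  have hA1 : - ∑ x ∈ Icc 1 c, Hub lam (g1 c u s r x) - c * (lam / 2)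
      ≤ ∑ x ∈ Icc 1 c, s x * g1 c u s r x := by
    have : ∑ x ∈ Icc 1 c, (- Hub lam (g1 c u s r x) - lam / 2)
        ≤ ∑ x ∈ Icc 1 c, s x * g1 c u s r x := by
      refine Finset.sum_le_sum (fun x hx => ?_)
      have := h6 (g1 c u s r x)
      rw [H.hs x hx]
      linarith
    rw [Finset.sum_sub_distrib, Finset.sum_neg_distrib] at this
    simpa using this
  have hA2 : - ∑ x ∈ Icc 1 u, Hub lam (w1 u s r x) - u * (lam / 2)
      ≤ ∑ x ∈ Icc 1 u, r x * w1 u s r x := by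
    have : ∑ x ∈ Icc 1 u, (- Hub lam (w1 u s r x) - lam / 2)
        ≤ ∑ x ∈ Icc 1 u, r x * w1 u s r x := by
      refine Finset.sum_le_sum (fun x hx => ?_)
      have := h6 (w1 u s r x)
      rw [H.hr x hx]
      linarith
    rw [Finset.sum_sub_distrib, Finset.sum_neg_distrib] at this
    simpa using this
  -- step B
  have hB : ∑ x ∈ Icc 1 c, Hub lam (g1 c u s r x) ≤
      c * Hub lam (g1 c u s r c)
        - ∑ x ∈ Icc 1 c, ((x : ℝ) - 1) * (s x * (s (c + 1 - x) + 2 * r x))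
        + c * (c * (5 / lam)) := by
    rw [abel (fun x => Hub lam (g1 c u s r x)) c]
    have : ∑ x ∈ Icc 1 c, (((x : ℝ) - 1) * (s x * (s (c + 1 - x) + 2 * r x)) - c * (5 / lam))
        ≤ ∑ x ∈ Icc 1 c, ((x : ℝ) - 1) *
          (Hub lam (g1 c u s r x) - Hub lam (g1 c u s r (x - 1))) := by
      refine Finset.sum_le_sum (fun x hx => ?_)
      simp only [mem_Icc] at hx
      have hT := (hTELG c u lam s r H (x - 1) x (by omega) (by omega)).2
      have hI : Ioc (x - 1) x = {x} := by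
        ext y; simp only [mem_Ioc, mem_singleton]; omega
      rw [hI, Finset.sum_singleton] at hT
      have hcast : ((x : ℝ) - ((x - 1 : ℕ) : ℝ)) = 1 := by
        rw [Nat.cast_sub hx.1]; push_cast; ring
      rw [hcast] at hT
      have hT' := (abs_le.mp hT).1
      have hx1 : (1 : ℝ) ≤ x := by exact_mod_cast hx.1
      have hxc : (x : ℝ) ≤ c := by exact_mod_cast hx.2
      have h5l : 0 ≤ 5 / lam := by positivity
      have h51 : 5 * 1 / lam = 5 / lam := by ring
      rw [h51] at hT'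
      have e1 : ((x : ℝ) - 1) * (s x * (s (c + 1 - x) + 2 * r x) - 5 / lam) ≤
          ((x : ℝ) - 1) * (Hub lam (g1 c u s r x) - Hub lam (g1 c u s r (x - 1))) :=
        mul_le_mul_of_nonneg_left (by linarith) (by linarith)
      have e2 : ((x : ℝ) - 1) * (5 / lam) ≤ c * (5 / lam) :=
        mul_le_mul_of_nonneg_right (by linarith) h5l
      linarith
    rw [Finset.sum_sub_distrib] at this
    simp only [Finset.sum_const, Nat.card_Icc, nsmul_eq_mul, Nat.add_sub_cancel] at this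
    linarith
  -- step C
  have hC : ∑ x ∈ Icc 1 c, ((x : ℝ) - 1) * (s x * s (c + 1 - x)) =
      (c - 1) / 2 * ∑ x ∈ Icc 1 c, s x * s (c + 1 - x) := by
    have h := reflect (fun x => ((x : ℝ) - 1) * (s x * s (c + 1 - x))) c
    have h' : ∑ x ∈ Icc 1 c, (((c + 1 - x : ℕ) : ℝ) - 1) * (s (c + 1 - x) * s (c + 1 - (c + 1 - x)))
        = ∑ x ∈ Icc 1 c, ((c : ℝ) - x) * (s x * s (c + 1 - x)) := by
      refine Finset.sum_congr rfl (fun x hx => ?_)
      simp only [mem_Icc] at hx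
      rw [show c + 1 - (c + 1 - x) = x by omega, Nat.cast_sub (by omega)]
      push_cast
      ring
    rw [h'] at h
    have h2 : ∑ x ∈ Icc 1 c, ((x : ℝ) - 1) * (s x * s (c + 1 - x))
        + ∑ x ∈ Icc 1 c, ((c : ℝ) - x) * (s x * s (c + 1 - x))
        = (c - 1) * ∑ x ∈ Icc 1 c, s x * s (c + 1 - x) := by
      rw [← Finset.sum_add_distrib, Finset.mul_sum]
      refine Finset.sum_congr rfl (fun x _ => ?_)
      ring
    linarith
  -- step D
  have hD : ∑ x ∈ Icc 1 u, Hub lam (w1 u s r x) ≤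
      u * Hub lam (w1 u s r u)
        + ∑ x ∈ Icc 1 u, ((x : ℝ) - 1) * (r (x - 1) * s (x - 1) - r (u + 1 - x) * s (u + 1 - x))
        + u * (u * (4 / lam)) := by
    rw [abel (fun x => Hub lam (w1 u s r x)) u]
    have : - ∑ x ∈ Icc 1 u, ((x : ℝ) - 1) *
          (Hub lam (w1 u s r x) - Hub lam (w1 u s r (x - 1))) ≤
        ∑ x ∈ Icc 1 u, (((x : ℝ) - 1) * (r (x - 1) * s (x - 1) - r (u + 1 - x) * s (u + 1 - x))
          + u * (4 / lam)) := by
      rw [← Finset.sum_neg_distrib]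
      refine Finset.sum_le_sum (fun x hx => ?_)
      simp only [mem_Icc] at hx
      have h4l : 0 ≤ 4 / lam := by positivity
      have hx1 : (1 : ℝ) ≤ x := by exact_mod_cast hx.1
      have hxu : (x : ℝ) ≤ u := by exact_mod_cast hx.2
      by_cases hx2 : x = 1
      · subst hx2
        simp only [Nat.cast_one, sub_self, zero_mul, neg_zero, zero_add]
        positivity
      · have hT := (hTELW c u lam s r H (x - 1) x (by omega) (by omega) (by omega)).2
        have hI : Ico (x - 1) x = {x - 1} := by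
          ext y; simp only [mem_Ico, mem_singleton]; omega
        rw [hI, Finset.sum_singleton, Finset.sum_singleton] at hT
        have hcast : ((x : ℝ) - ((x - 1 : ℕ) : ℝ)) = 1 := by
          rw [Nat.cast_sub hx.1]; push_cast; ring
        rw [hcast, show u - (x - 1) = u + 1 - x by omega] at hT
        have hT' := (abs_le.mp hT).1
        have h41 : 4 * 1 / lam = 4 / lam := by ring
        rw [h41] at hT'
        have e1 : ((x : ℝ) - 1) * (- (Hub lam (w1 u s r x) - Hub lam (w1 u s r (x - 1)))) ≤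
            ((x : ℝ) - 1) * (r (x - 1) * s (x - 1) - r (u + 1 - x) * s (u + 1 - x) + 4 / lam) :=
          mul_le_mul_of_nonneg_left (by linarith) (by linarith)
        have e2 : ((x : ℝ) - 1) * (4 / lam) ≤ u * (4 / lam) :=
          mul_le_mul_of_nonneg_right (by linarith) h4l
        linarith
    rw [Finset.sum_add_distrib] at this
    simp only [Finset.sum_const, Nat.card_Icc, nsmul_eq_mul, Nat.add_sub_cancel] at this
    linarith
  have hD2 : ∑ x ∈ Icc 1 u,
      ((x : ℝ) - 1) * (r (x - 1) * s (x - 1) - r (u + 1 - x) * s (u + 1 - x)) =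
      2 * ∑ x ∈ Icc 1 u, (x : ℝ) * (r x * s x) - u * (r u * s u)
        - u * ∑ x ∈ Icc 1 u, r x * s x := by
    have h1 := shift (fun x => r x * s x) u
    have h2 := reflect (fun x => ((x : ℝ) - 1) * (r (u + 1 - x) * s (u + 1 - x))) u
    have h3 : ∑ x ∈ Icc 1 u, (((u + 1 - x : ℕ) : ℝ) - 1) *
        (r (u + 1 - (u + 1 - x)) * s (u + 1 - (u + 1 - x)))
        = u * ∑ x ∈ Icc 1 u, r x * s x - ∑ x ∈ Icc 1 u, (x : ℝ) * (r x * s x) := by
      rw [Finset.mul_sum, ← Finset.sum_sub_distrib]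
      refine Finset.sum_congr rfl (fun x hx => ?_)
      simp only [mem_Icc] at hx
      rw [show u + 1 - (u + 1 - x) = x by omega, Nat.cast_sub (by omega)]
      push_cast
      ring
    rw [h3] at h2
    have h4 : ∑ x ∈ Icc 1 u,
        ((x : ℝ) - 1) * (r (x - 1) * s (x - 1) - r (u + 1 - x) * s (u + 1 - x)) =
        ∑ x ∈ Icc 1 u, ((x : ℝ) - 1) * (r (x - 1) * s (x - 1))
        - ∑ x ∈ Icc 1 u, ((x : ℝ) - 1) * (r (u + 1 - x) * s (u + 1 - x)) := by
      rw [← Finset.sum_sub_distrib]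
      refine Finset.sum_congr rfl (fun x _ => ?_)
      ring
    rw [h4, h1, h2]
    ring
  -- the mixed sum
  have hM : ∑ x ∈ Icc 1 c, ((x : ℝ) - 1) * (s x * (2 * r x)) =
      2 * ∑ x ∈ Icc 1 u, (x : ℝ) * (r x * s x) - 2 * ∑ x ∈ Icc 1 u, r x * s x := by
    have hsub : Icc 1 u ⊆ Icc 1 c := by
      intro x hx; simp only [mem_Icc] at hx ⊢; omega
    have : ∑ x ∈ Icc 1 c, ((x : ℝ) - 1) * (s x * (2 * r x)) =
        ∑ x ∈ Icc 1 u, ((x : ℝ) - 1) * (s x * (2 * r x)) := by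
      symm
      refine Finset.sum_subset hsub (fun x _ hx => ?_)
      rw [H.r0 x hx]; ring
    rw [this, Finset.mul_sum, Finset.mul_sum, ← Finset.sum_sub_distrib]
    refine Finset.sum_congr rfl (fun x _ => ?_)
    ring
  have hsplit : ∑ x ∈ Icc 1 c, ((x : ℝ) - 1) * (s x * (s (c + 1 - x) + 2 * r x)) =
      ∑ x ∈ Icc 1 c, ((x : ℝ) - 1) * (s x * s (c + 1 - x))
      + ∑ x ∈ Icc 1 c, ((x : ℝ) - 1) * (s x * (2 * r x)) := by
    rw [← Finset.sum_add_distrib]
    refine Finset.sum_congr rfl (fun x _ => ?_)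
    ring
  -- values
  have hmul : ∀ a b : ℝ, |a| ≤ 1 → |b| ≤ 1 → |a * b| ≤ 1 := by
    intro a b ha hb
    rw [abs_mul]
    exact mul_le_one₀ ha (abs_nonneg _) hb
  have hSs : |∑ x ∈ Icc 1 c, s x * s (c + 1 - x)| ≤ c := by
    refine (Finset.abs_sum_le_sum_abs _ _).trans ?_
    calc ∑ x ∈ Icc 1 c, |s x * s (c + 1 - x)| ≤ ∑ _x ∈ Icc 1 c, (1 : ℝ) :=
          Finset.sum_le_sum (fun x _ => hmul _ _ (hs1 _) (hs1 _))
      _ = c := by simp
  have hSr : |∑ x ∈ Icc 1 u, r x * s x| ≤ u := by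
    refine (Finset.abs_sum_le_sum_abs _ _).trans ?_
    calc ∑ x ∈ Icc 1 u, |r x * s x| ≤ ∑ _x ∈ Icc 1 u, (1 : ℝ) :=
          Finset.sum_le_sum (fun x _ => hmul _ _ (hr1 _) (hs1 _))
      _ = u := by simp
  have hgc : g1 c u s r c = S s c := by
    unfold g1
    have hr' : S r c = S r u := by
      unfold S
      symm
      refine Finset.sum_subset ?_ (fun x _ hx => H.r0 x hx)
      intro x hx; simp only [mem_Icc] at hx ⊢; omega
    rw [hr', Nat.sub_self]
    simp [S]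
  have hHc : Hub lam (g1 c u s r c) ≤ |S s c| := by
    rw [hgc]; exact (h5 _).2
  have hHu : Hub lam (w1 u s r u) ≤ |w1 u s r u| := (h5 _).2
  have hcH : (c : ℝ) * Hub lam (g1 c u s r c) ≤ c * |S s c| :=
    mul_le_mul_of_nonneg_left hHc hc0
  have huH : (u : ℝ) * Hub lam (w1 u s r u) ≤ u * |w1 u s r u| :=
    mul_le_mul_of_nonneg_left hHu hu0
  have hru : |r u * s u| ≤ 1 := hmul _ _ (hr1 _) (hs1 _)
  have hru' : - (u : ℝ) ≤ u * (r u * s u) := by
    have := (abs_le.mp hru).1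
    nlinarith
  -- errors
  have herr : (c : ℝ) * (lam / 2) + u * (lam / 2) + c / 2 + c * (c * (5 / lam))
      + u * (u * (4 / lam)) + 3 * u ≤ 20 * ((c : ℝ) ^ 2 / lam + c * lam) := by
    have a1 : (u : ℝ) * (lam / 2) ≤ c * (lam / 2) :=
      mul_le_mul_of_nonneg_right hucR (by linarith)
    have a2 : (u : ℝ) * (u * (4 / lam)) ≤ c * (c * (4 / lam)) := by
      have h4l : 0 ≤ 4 / lam := by positivity
      exact mul_le_mul hucR (mul_le_mul_of_nonneg_right hucR h4l) (by positivity) hc0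
    have a3 : (c : ℝ) ≤ c * lam := by nlinarith
    have a4 : (c : ℝ) * (c * (5 / lam)) = 5 * ((c : ℝ) ^ 2 / lam) := by ring
    have a5 : (c : ℝ) * (c * (4 / lam)) = 4 * ((c : ℝ) ^ 2 / lam) := by ring
    have a6 : 0 ≤ (c : ℝ) ^ 2 / lam := by positivity
    nlinarith
  have hSs' := (abs_le.mp hSs).2
  have hSr' := (abs_le.mp hSr).2
  have hhalf : (c / 2 : ℝ) * ∑ x ∈ Icc 1 c, s x * s (c + 1 - x) =
      (c - 1) / 2 * ∑ x ∈ Icc 1 c, s x * s (c + 1 - x)
        + 1 / 2 * ∑ x ∈ Icc 1 c, s x * s (c + 1 - x) := by ring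
  rw [hhalf, ← hC]
  rw [hsplit, hM] at hB
  rw [hD2] at hD
  linarith

end Pool.Agent.Helper90.SCH
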